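import Pool.Agent.Helper80.HD.GoalsB

/-! # Project HD, packet CMP: the height of a power -/

set_option autoImplicit false

open MvPolynomial

noncomputable section

namespace Pool.Agent.Helper55.HD

open Pool.Agent.Helper80.HD Height

theorem abs_multiset_sum_le {α : Type*} (f : α → ℝ) (b : ℝ) (M : Multiset α)
    (h : ∀ v ∈ M, |f v| ≤ b) : |(M.map f).sum| ≤ Multiset.card M * b := by
  induction M using Multiset.induction_on with
  | empty => simp
  | cons a M ih =>
    rw [Multiset.map_cons, Multiset.sum_cons, Multiset.card_cons]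
    have h1 := ih fun v hv => h v (Multiset.mem_cons_of_mem hv)
    have h2 := h a (Multiset.mem_cons_self a M)
    have h3 := abs_add_le (f a) (M.map f).sum
    push_cast
    linarith

theorem multiset_sum_sub {α : Type*} (f g : α → ℝ) (r : ℝ) (M : Multiset α) :
    (M.map f).sum - r * (M.map g).sum = (M.map fun v => f v - r * g v).sum := by
  induction M using Multiset.induction_on with
  | empty => simp
  | cons a M ih =>
    simp only [Multiset.map_cons, Multiset.sum_cons]
    linarith

theorem cmp (h1 : S_LHD) (h2 : S_GNM) (h3 : S_GEL) : S_CMP := by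
  intro K _ _ σ _
  obtain ⟨cG, hcG, hG⟩ := h3 σ
  obtain ⟨hlh, hemb, -, hna, -⟩ := h1 K
  obtain ⟨hnon, hgen, -⟩ := h2
  refine ⟨Multiset.card (AdmissibleAbsValues.archAbsVal (K := K)) * cG, by positivity, ?_⟩
  intro P e hP
  have hPe : P ^ e ≠ 0 := pow_ne_zero _ hP
  rw [(hlh σ P hP).1, (hlh σ (P ^ e) hPe).1]
  -- the finite places
  have hfin : ∑ᶠ v : AdmissibleAbsValues.nonarchAbsVal (K := K), Real.log (gn v.1 (P ^ e)) =
      e * ∑ᶠ v : AdmissibleAbsValues.nonarchAbsVal (K := K), Real.log (gn v.1 P) := by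
    rw [← smul_eq_mul (e : ℝ), smul_finsum]
    refine finsum_congr fun v => ?_
    rw [(hnon K σ v.1 (hna v.1 v.2)).2.1 P e, Real.log_pow, smul_eq_mul]
  rw [hfin]
  have hsplit : ∀ A B F : ℝ, A + e * F - e * (B + F) = A - e * B := by intro A B F; ring
  rw [hsplit, multiset_sum_sub]
  rw [mul_assoc]
  refine abs_multiset_sum_le _ _ _ fun v hv => ?_
  obtain ⟨τ, hτ⟩ := hemb v hv
  have hmap : ∀ Q : MvPolynomial σ K, gn absC (map τ Q) = gn v Q := fun Q =>
    (hgen K σ v).2.2.2.2.2 ℂ τ absC (fun x => (hτ x).symm) Q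
  have hmP : map τ P ≠ 0 := by
    intro h
    exact hP (map_injective τ τ.injective (by rw [h, map_zero]))
  have h4 := hG (Fin e) (fun _ => map τ P) (fun _ => hmP)
  rw [Finset.prod_const, Finset.card_univ, Fintype.card_fin, ← map_pow, hmap, hmap,
    Finset.sum_const, Finset.card_univ, Fintype.card_fin, nsmul_eq_mul, Finset.sum_const,
    Finset.card_univ, Fintype.card_fin, nsmul_eq_mul] at h4
  refine h4.trans ?_
  refine mul_le_mul_of_nonneg_left ?_ hcG
  have h5 : ((map τ P).totalDegree : ℝ) ≤ (P.totalDegree : ℝ) := by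
    exact_mod_cast (Finset.sup_mono (support_map_subset τ P) :
      (map τ P).totalDegree ≤ P.totalDegree)
  have h6 : (0 : ℝ) ≤ e := Nat.cast_nonneg e
  nlinarith

end Pool.Agent.Helper55.HD
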