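import Pool.Agent.Helper80.HD.GoalsA

/-! # Project HD, packet PTR: field degrees and purely transcendental extensions -/

set_option autoImplicit false

open MvPolynomial Module

noncomputable section

namespace Pool.Agent.Helper55.HD

open Pool.Agent.Helper80.HD

open IntermediateField.algebraAdjoinAdjoin in
/-- `A` and `k(c)` are linearly disjoint over `k` if `c` is algebraically independent over `A`. -/
theorem linDisj {k E ι : Type*} [Field k] [Field E] [Algebra k E] (A : IntermediateField k E)
    (c : ι → E) (hc : AlgebraicIndependent A c) :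
    A.LinearDisjoint (IntermediateField.adjoin k (Set.range c)) := by
  classical
  let b := Basis.ofVectorSpace k A
  refine IntermediateField.LinearDisjoint.of_basis_left b ?_
  rw [← LinearIndependent.iff_fractionRing (Algebra.adjoin k (Set.range c))
    (IntermediateField.adjoin k (Set.range c))]
  rw [linearIndependent_iff']
  intro s g hg i hi
  have h1 : ∀ i, ∃ G : MvPolynomial ι k, aeval c G = (g i : E) := by
    intro i
    have key : ∀ y : E, y ∈ Algebra.adjoin k (Set.range c) → ∃ G : MvPolynomial ι k, aeval c G = y := by
      intro y hy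
      rw [Algebra.adjoin_range_eq_range_aeval] at hy
      exact hy
    exact key _ (g i).2
  choose G hG using h1
  set Q : MvPolynomial ι A := ∑ i ∈ s, C (b i) * MvPolynomial.map (algebraMap k A) (G i) with hQ
  have h2 : aeval c Q = 0 := by
    rw [hQ, map_sum]
    rw [← hg]
    refine Finset.sum_congr rfl fun i _ => ?_
    rw [map_mul, aeval_C, aeval_map_algebraMap, hG i]
    rw [Subalgebra.smul_def, smul_eq_mul, mul_comm]
    rfl
  have h3 : Q = 0 := (algebraicIndependent_iff.1 hc) Q h2
  have h4 : G i = 0 := by
    ext m
    have h5 : ∑ i ∈ s, (coeff m (G i)) • b i = 0 := by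
      have h6 := congrArg (coeff m) h3
      rw [hQ, coeff_sum] at h6
      rw [coeff_zero] at h6
      rw [← h6]
      refine Finset.sum_congr rfl fun i _ => ?_
      rw [coeff_C_mul, coeff_map, Algebra.smul_def, mul_comm]
    have h7 := (linearIndependent_iff'.1 b.linearIndependent) s (fun i => coeff m (G i)) h5 i hi
    simpa using h7
  apply Subtype.ext
  rw [← hG i, h4]
  simp

theorem relf {k E : Type*} [Field k] [Field E] [Algebra k E] (B : IntermediateField k E)
    (AB : IntermediateField B E) : B.toSubfield.relfinrank AB.toSubfield = finrank B AB := by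
  have h : B.toSubfield ≤ AB.toSubfield := fun x hx => AB.algebraMap_mem ⟨x, hx⟩
  rw [Subfield.relfinrank_eq_finrank_of_le h]
  rfl

theorem ptr : S_PTR := by
  intro K _ _ F₀ F ι _ c h01 hfin hc
  set A : IntermediateField F₀ ℂ := IntermediateField.extendScalars h01 with hA
  have hA0 : F₀.relfinrank F = finrank F₀ A := IntermediateField.relfinrank_eq_finrank_of_le h01
  rw [hA0] at hfin ⊢
  have : FiniteDimensional F₀ A := Module.finite_of_finrank_pos (Nat.pos_of_ne_zero hfin)
  have : Algebra.IsAlgebraic F₀ A := Algebra.IsAlgebraic.of_finite F₀ A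
  have hcA : AlgebraicIndependent A c := hc
  set B : IntermediateField F₀ ℂ := IntermediateField.adjoin F₀ (Set.range c) with hB
  have hAB : A.LinearDisjoint B := linDisj A c hcA
  have h1 := hAB.adjoin_rank_eq_rank_left_of_isAlgebraic_left
  set AB : IntermediateField B ℂ := IntermediateField.adjoin B (A : Set ℂ) with hABdef
  have h2 : finrank B AB = finrank F₀ A := by
    unfold Module.finrank
    rw [h1]
  have hBs : B.toSubfield = (F₀ ⊔ LK K c).toSubfield := by
    apply le_antisymm
    · intro y hy
      have h3 : B ≤ IntermediateField.extendScalars (le_sup_left : F₀ ≤ F₀ ⊔ LK K c) := by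
        rw [hB, IntermediateField.adjoin_le_iff]
        rintro _ ⟨i, rfl⟩
        have h4 : LK K c ≤ F₀ ⊔ LK K c := le_sup_right
        exact h4 (IntermediateField.subset_adjoin K _ (Set.mem_range_self i))
      exact h3 hy
    · intro y hy
      have h3 : F₀ ⊔ LK K c ≤ B.restrictScalars K := by
        refine sup_le ?_ ?_
        · intro y hy
          exact B.algebraMap_mem ⟨y, hy⟩
        · rw [IntermediateField.adjoin_le_iff]
          rintro _ ⟨i, rfl⟩
          exact IntermediateField.subset_adjoin F₀ _ (Set.mem_range_self i)
      exact h3 hy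
  have hABs : AB.toSubfield = (F ⊔ LK K c).toSubfield := by
    have hBle : ∀ y, y ∈ B → y ∈ F ⊔ LK K c := by
      intro y hy
      have h3 : y ∈ B.toSubfield := hy
      rw [hBs] at h3
      have h4 : F₀ ⊔ LK K c ≤ F ⊔ LK K c := sup_le_sup_right h01 _
      exact h4 h3
    apply le_antisymm
    · have h3 : AB ≤ Subfield.extendScalars
          (show B.toSubfield ≤ (F ⊔ LK K c).toSubfield from hBle) := by
        rw [hABdef, IntermediateField.adjoin_le_iff]
        intro y hy
        have h4 : F ≤ F ⊔ LK K c := le_sup_left
        exact h4 hy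
      exact h3
    · intro y hy
      have h3 : F ⊔ LK K c ≤ (AB.restrictScalars F₀).restrictScalars K := by
        refine sup_le ?_ ?_
        · intro y hy
          exact IntermediateField.subset_adjoin B _ hy
        · rw [IntermediateField.adjoin_le_iff]
          rintro _ ⟨i, rfl⟩
          exact AB.algebraMap_mem ⟨c i, IntermediateField.subset_adjoin F₀ _
            (Set.mem_range_self i)⟩
      exact h3 hy
  show (F₀ ⊔ LK K c).toSubfield.relfinrank (F ⊔ LK K c).toSubfield = _
  rw [← hBs, ← hABs, relf, h2]

end Pool.Agent.Helper55.HD
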